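import Pool.Agent.H97.RK.Targets

/-!
# MP_c62aed_lc, random k-CNFs, row CN1: counting assignments
-/

set_option autoImplicit false

open Finset Pool.Agent.H97.RK

namespace Pool.Agent.H37.RKS

private theorem eq_on_vs {n : ℕ} {C : Clause n} {y z : Fin n → Bool} (hy : Falsified C y)
    (hz : Falsified C z) {v : Fin n} (hv : v ∈ vs C) : y v = z v := by
  unfold vs at hv
  rw [mem_image] at hv
  obtain ⟨l, hl, rfl⟩ := hv
  have h1 := hy l hl
  have h2 := hz l hl
  revert h1 h2
  cases y l.1 <;> cases z l.1 <;> cases l.2 <;> simp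

private theorem card_small (n q : ℕ) :
    ((univ : Finset (Finset (Fin n))).filter fun D => D.card ≤ q).card ≤ bl n q := by
  classical
  have h : ((univ : Finset (Finset (Fin n))).filter fun D => D.card ≤ q) ⊆
      (range (q + 1)).biUnion fun i => powersetCard i (univ : Finset (Fin n)) := by
    intro D hD
    rw [mem_filter] at hD
    rw [mem_biUnion]
    exact ⟨D.card, mem_range.2 (by omega), mem_powersetCard.2 ⟨subset_univ _, rfl⟩⟩
  refine (card_le_card h).trans (card_biUnion_le.trans ?_)
  unfold bl
  refine le_of_eq (sum_congr rfl fun i _ => ?_)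
  rw [card_powersetCard, card_univ, Fintype.card_fin]

private theorem card_one (n g q : ℕ) (C : Clause n) (X : Finset (Fin n → Bool))
    (hX : ∀ x ∈ X, ∃ y, Falsified C y ∧ n ≤ (vs C).card + g ∧ dst y x ≤ q) :
    X.card ≤ 2 ^ g * bl n q := by
  classical
  rcases X.eq_empty_or_nonempty with h | ⟨x0, hx0⟩
  · rw [h, card_empty]
    exact Nat.zero_le _
  obtain ⟨f, hf, hn, -⟩ := hX x0 hx0
  have h1 : X.card ≤ ((vs C)ᶜ.powerset ×ˢ
      ((univ : Finset (Finset (Fin n))).filter fun D => D.card ≤ q)).card := by
    refine card_le_card_of_injOn (fun x => ((vs C)ᶜ.filter fun v => x v = true,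
      (vs C).filter fun v => x v ≠ f v)) ?_ ?_
    · intro x hx
      rw [mem_coe] at hx
      obtain ⟨y, hy, -, hq⟩ := hX x hx
      rw [mem_coe, mem_product, mem_powerset, mem_filter]
      refine ⟨filter_subset _ _, mem_univ _, ?_⟩
      refine le_trans (card_le_card ?_) hq
      intro v hv
      rw [mem_filter] at hv ⊢
      refine ⟨mem_univ _, ?_⟩
      rw [eq_on_vs hy hf hv.1]
      exact hv.2.symm
    · intro x _ x' _ hxx
      rw [Prod.mk.injEq] at hxx
      funext v
      by_cases hv : v ∈ vs C
      · have h2 := congrArg (fun s => v ∈ s) hxx.2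
        simp only [mem_filter, hv, true_and, eq_iff_iff] at h2
        revert h2
        cases x v <;> cases x' v <;> cases f v <;> simp
      · have h2 := congrArg (fun s => v ∈ s) hxx.1
        simp only [mem_filter, mem_compl, hv, not_false_eq_true, true_and, eq_iff_iff] at h2
        revert h2
        cases x v <;> cases x' v <;> simp
  refine h1.trans ?_
  rw [card_product, card_powerset, card_compl, Fintype.card_fin]
  refine Nat.mul_le_mul (Nat.pow_le_pow_right (by norm_num) ?_) (card_small n q)
  omega

theorem pf_CN1 : T_CN1 := by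
  classical
  intro n S g q line h
  have h1 : (univ : Finset (Fin n → Bool)) ⊆ (range S).biUnion fun i => univ.filter fun x =>
      ∃ y, Falsified (line i) y ∧ n ≤ (vs (line i)).card + g ∧ dst y x ≤ q := by
    intro x _
    obtain ⟨i, hi, h2⟩ := h x
    rw [mem_biUnion]
    exact ⟨i, mem_range.2 hi, mem_filter.2 ⟨mem_univ _, h2⟩⟩
  have h3 := (card_le_card h1).trans (card_biUnion_le_card_mul (range S) _ (2 ^ g * bl n q)
    fun i _ => card_one n g q (line i) _ fun x hx => (mem_filter.1 hx).2)
  rw [card_univ, Fintype.card_fun, Fintype.card_bool, Fintype.card_fin, card_range] at h3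
  exact h3

end Pool.Agent.H37.RKS
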