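import Pool.Agent.H97.RK.Targets

/-!
# MP_c62aed_lc, random k-CNFs, row TAU: restrictions
-/

set_option autoImplicit false

open Finset Pool.Agent.H97.RK

namespace Pool.Agent.H37.RKS

private theorem dst_tri {n : ℕ} (a b c : Fin n → Bool) : dst a c ≤ dst a b + dst b c := by
  unfold dst
  refine le_trans (card_le_card ?_) (card_union_le _ _)
  intro u hu
  rw [mem_union, mem_filter, mem_filter]
  rw [mem_filter] at hu
  by_contra h
  push Not at h
  exact hu.2 ((h.1 (mem_univ _)).trans (h.2 (mem_univ _)))

theorem pf_TAU (hASK : T_ASK) : T_TAU := by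
  classical
  intro n k m F j t d e s₀ hP x A hA
  suffices h : ∀ A : Finset (Fin n), A.card + e + d ≤ n → ∃ (y : Fin n → Bool)
      (W : Finset (Fin n)) (J : Finset (Fin m)), St F j t y A W J ∧ dst y x ≤ J.card by
    obtain ⟨y, W, J, h1, h2⟩ := h A hA
    exact ⟨y, W, J, h1, h2.trans h1.lt.le⟩
  intro A
  induction A using Finset.induction_on with
  | empty =>
    intro _
    refine ⟨x, ∅, ∅, ⟨?_, ?_, ?_, ?_, ?_, ?_⟩, ?_⟩
    · intro c hc
      exact absurd hc (notMem_empty c)
    · intro c hc
      exact absurd hc (notMem_empty c)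
    · intro c hc
      exact absurd hc (notMem_empty c)
    · intro c _ _
      have := hP.jk
      simp [Pool.Agent.H97.RK.out, this]
    · simp
    · have := hP.t1
      simp
      omega
    · simp [dst]
  | insert v A hv ih =>
    intro hA
    rw [card_insert_of_notMem hv] at hA
    obtain ⟨y, W, J, h1, h2⟩ := ih (by omega)
    obtain ⟨y', W', J', h3, -, h5⟩ := hASK n k m F j t d e s₀ hP y A W J v h1 hv hA
    refine ⟨y', W', J', h3, ?_⟩
    have := dst_tri y' y x
    omega

end Pool.Agent.H37.RKS
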